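import Pool.Agent.W313.BMX.Stm

/-!
# Part BX-TWOA: symbols at `2`
-/

set_option autoImplicit false

namespace Pool.Agent.W975.BMX

open Pool.Agent.W313.BMX

theorem sq_of_mod (a : ℤ) (ha : a % 8 = 1) : ∃ s : ℤ_[2], s ^ 2 = (a : ℤ_[2]) := by
  have h8 : ((2 ^ 3 : ℕ) : ℤ) ∣ 1 - a := by
    push_cast
    omega
  have h1 : ‖((1 - a : ℤ) : ℤ_[2])‖ ≤ ((2 : ℕ) : ℝ) ^ (-(3 : ℕ) : ℤ) := by
    rw [PadicInt.norm_int_le_pow_iff_dvd]
    exact_mod_cast h8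
  have h2 : ‖(2 : ℤ_[2])‖ = 1 / 2 := by
    have := PadicInt.norm_p (p := 2)
    push_cast at this
    rw [this]
    norm_num
  obtain ⟨z, hz, _⟩ := hensels_lemma (p := 2) (F := Polynomial.X ^ 2 - Polynomial.C (a : ℤ_[2]))
    (a := (1 : ℤ_[2])) (by
      simp only [Polynomial.eval_sub, Polynomial.eval_pow, Polynomial.eval_X, Polynomial.eval_C,
        one_pow, Polynomial.derivative_sub, Polynomial.derivative_X_pow, Polynomial.derivative_C,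
        sub_zero, Polynomial.eval_mul, Nat.cast_ofNat, Polynomial.aeval_def]
      have e1 : (1 : ℤ_[2]) - (a : ℤ_[2]) = ((1 - a : ℤ) : ℤ_[2]) := by push_cast; ring
      simp [h2]
      rw [e1]
      refine lt_of_le_of_lt h1 ?_
      norm_num)
  refine ⟨z, ?_⟩
  simpa [sub_eq_zero] using hz

theorem sq_of_mod' (a : ℤ) (ha : a % 8 = 1) : ∃ s : ℚ_[2], s ^ 2 = (a : ℚ_[2]) := by
  obtain ⟨s, hs⟩ := sq_of_mod a ha
  refine ⟨(s : ℚ_[2]), ?_⟩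
  have := congrArg (fun t : ℤ_[2] => (t : ℚ_[2])) hs
  simpa using this

theorem two1 : S_TWO1 := by
  intro m n hm hmn
  have h8 : (m * n) % 8 = 1 := by
    have h : m % 8 = 1 ∨ m % 8 = 3 ∨ m % 8 = 5 ∨ m % 8 = 7 := by omega
    rw [Int.mul_emod, ← hmn]
    rcases h with h | h | h | h <;> rw [h] <;> norm_num
  obtain ⟨s, hs⟩ := sq_of_mod' (m * n) h8
  exact ⟨s, by rw [← hs]; ring⟩

theorem two2 : S_TWO2 := by
  intro c e hc he
  have h : e % 8 = 1 ∨ e % 8 = 5 := by omega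
  rcases h with h | h
  · obtain ⟨s, hs⟩ := sq_of_mod' e h
    exact ⟨0, 1, s, Or.inr (Or.inl one_ne_zero), by rw [hs]; ring⟩
  · obtain ⟨s, hs⟩ := sq_of_mod' (4 * c + e) (by omega)
    refine ⟨2, 1, s, Or.inr (Or.inl one_ne_zero), ?_⟩
    rw [hs]; push_cast; ring

theorem scale3 (x y z : ℚ_[2]) (h : x ≠ 0 ∨ y ≠ 0 ∨ z ≠ 0) :
    ∃ (l : ℚ_[2]) (X Y Z : ℤ_[2]), l ≠ 0 ∧ x = l * X ∧ y = l * Y ∧ z = l * Z ∧
      (X = 1 ∨ Y = 1 ∨ Z = 1) := by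
  have hmax : ∃ l, (l = x ∨ l = y ∨ l = z) ∧ ‖x‖ ≤ ‖l‖ ∧ ‖y‖ ≤ ‖l‖ ∧ ‖z‖ ≤ ‖l‖ := by
    rcases le_total ‖x‖ ‖y‖ with h1 | h1
    · rcases le_total ‖y‖ ‖z‖ with h2 | h2
      · exact ⟨z, Or.inr (Or.inr rfl), h1.trans h2, h2, le_rfl⟩
      · exact ⟨y, Or.inr (Or.inl rfl), h1, le_rfl, h2⟩
    · rcases le_total ‖x‖ ‖z‖ with h2 | h2
      · exact ⟨z, Or.inr (Or.inr rfl), h2, h1.trans h2, le_rfl⟩
      · exact ⟨x, Or.inl rfl, le_rfl, h1, h2⟩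
  obtain ⟨l, hl, hx, hy, hz⟩ := hmax
  have hl0 : l ≠ 0 := by
    rintro rfl
    rw [norm_zero] at hx hy hz
    rcases h with h | h | h
    · exact h (norm_le_zero_iff.1 hx)
    · exact h (norm_le_zero_iff.1 hy)
    · exact h (norm_le_zero_iff.1 hz)
  have hln : 0 < ‖l‖ := norm_pos_iff.2 hl0
  have aux : ∀ t : ℚ_[2], ‖t‖ ≤ ‖l‖ → ∃ T : ℤ_[2], t = l * T := by
    intro t ht
    refine ⟨⟨t / l, by rw [norm_div, div_le_one hln]; exact ht⟩, ?_⟩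
    change t = l * (t / l)
    field_simp
  obtain ⟨X, hX⟩ := aux x hx
  obtain ⟨Y, hY⟩ := aux y hy
  obtain ⟨Z, hZ⟩ := aux z hz
  have hone : ∀ (t : ℚ_[2]) (T : ℤ_[2]), t = l * T → l = t → T = 1 := by
    intro t T h1 h2
    have h3 : l * T = l * 1 := by rw [← h1, ← h2, mul_one]
    have h4 := mul_left_cancel₀ hl0 h3
    exact PadicInt.ext (by rw [h4]; rfl)
  refine ⟨l, X, Y, Z, hl0, hX, hY, hZ, ?_⟩
  rcases hl with h1 | h1 | h1
  · exact Or.inl (hone x X hX h1)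
  · exact Or.inr (Or.inl (hone y Y hY h1))
  · exact Or.inr (Or.inr (hone z Z hZ h1))

theorem dec3 : ∀ X Y Z c : ZMod 8, (c = 1 ∨ c = 3 ∨ c = 5 ∨ c = 7) →
    Z ^ 2 = 2 * c * X ^ 2 + 5 * Y ^ 2 → X ≠ 1 ∧ Y ≠ 1 ∧ Z ≠ 1 := by
  intro X Y Z c hc
  rcases hc with rfl | rfl | rfl | rfl <;> revert X Y Z <;> decide

theorem two3 : S_TWO3 := by
  intro c e hc he
  constructor
  · rintro ⟨x, y, z, hne, heq⟩
    by_contra h8
    have h5 : e % 8 = 5 := by omega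
    obtain ⟨l, X, Y, Z, hl, hx, hy, hz, hone⟩ := scale3 x y z hne
    have h1 : (Z : ℚ_[2]) ^ 2 = ((2 * c : ℤ) : ℚ_[2]) * (X : ℚ_[2]) ^ 2 + (e : ℚ_[2]) * (Y : ℚ_[2]) ^ 2 := by
      have hl2 : l ^ 2 ≠ 0 := pow_ne_zero _ hl
      apply mul_left_cancel₀ hl2
      rw [hx, hy, hz] at heq
      linear_combination heq
    have h2 : Z ^ 2 = 2 * (c : ℤ_[2]) * X ^ 2 + (e : ℤ_[2]) * Y ^ 2 := by
      apply PadicInt.ext
      push_cast at h1 ⊢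
      exact h1
    let f : ℤ_[2] →+* ZMod 8 := PadicInt.toZModPow 3
    have h3 := congrArg f h2
    simp only [map_add, map_mul, map_pow, map_intCast, map_ofNat] at h3
    have he5 : ((e : ℤ) : ZMod 8) = 5 := by
      rw [← ZMod.intCast_mod e 8]
      have : e % ((8 : ℕ) : ℤ) = 5 := by exact_mod_cast h5
      rw [this]; rfl
    have hcc : ((c : ℤ) : ZMod 8) = 1 ∨ ((c : ℤ) : ZMod 8) = 3 ∨ ((c : ℤ) : ZMod 8) = 5 ∨
        ((c : ℤ) : ZMod 8) = 7 := by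
      have h : c % ((8 : ℕ) : ℤ) = 1 ∨ c % ((8 : ℕ) : ℤ) = 3 ∨ c % ((8 : ℕ) : ℤ) = 5 ∨
          c % ((8 : ℕ) : ℤ) = 7 := by push_cast; omega
      rw [← ZMod.intCast_mod c 8]
      rcases h with h | h | h | h <;> rw [h]
      · left; rfl
      · right; left; rfl
      · right; right; left; rfl
      · right; right; right; rfl
    rw [he5] at h3
    obtain ⟨a1, a2, a3⟩ := dec3 _ _ _ _ hcc h3
    rcases hone with h | h | h
    · exact a1 (by rw [h, map_one])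
    · exact a2 (by rw [h, map_one])
    · exact a3 (by rw [h, map_one])
  · intro h
    obtain ⟨s, hs⟩ := sq_of_mod' e h
    exact ⟨0, 1, s, Or.inr (Or.inl one_ne_zero), by rw [hs]; ring⟩

end Pool.Agent.W975.BMX
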